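import Pool.Agent.X136.GT.Defs

set_option autoImplicit false

/-!
# Bond percolation on Galton-Watson trees: definitions

Vertices are words, see `Pool.Agent.X136.GT.Defs`.  The edge between the vertex `i :: u` and its
parent `u` is labelled by the word `i :: u`.
-/

namespace Pool.Agent.X136.GS

open MeasureTheory ProbabilityTheory Pool.Agent.X136.GT

/-- `u` is a vertex of the tree given by `Z` and all edges on the path from `u` to the root are
open, where the edge between `i :: u` and `u` is open when `c (i :: u) = true`; in other words `u`
belongs to the open cluster of the root. -/
def OpenTo (Z : Env) (c : List ℕ → Bool) : List ℕ → Prop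
  | [] => True
  | i :: u => OpenTo Z c u ∧ i < Z u ∧ c (i :: u) = true

/-- The quenched survival function: the probability, for Bernoulli(`p`) bond percolation on the
tree given by `Z`, that the open cluster of the root is infinite. -/
noncomputable def gq (Z : Env) (p : unitInterval) : ENNReal :=
  bern (List ℕ) p {c | {u | OpenTo Z c u}.Infinite}

/-- The annealed survival function for `p ∈ [0,1]` (extended by constants to the real line). -/
noncomputable def ga (ν : PMF ℕ) (p : ℝ) : ℝ :=
  (∫⁻ Z, gq Z (Set.projIcc 0 1 zero_le_one p) ∂GW ν).toReal

end Pool.Agent.X136.GS
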