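import Pool.Agent.X136.GS.Defs
import Pool.Agent.X136.GT.Meas
import Pool.Agent.X136.GT.Down

set_option autoImplicit false

/-!
# The recursion for the annealed survival function
-/

namespace Pool.Agent.X136.GS

open MeasureTheory ProbabilityTheory Filter Topology Pool.Agent.X136.GT

/-- number of children and mark -/
abbrev EB : Type := ℕ × Bool

/-- the law at a vertex -/
noncomputable def mb (ν : PMF ℕ) (p : unitInterval) : Measure EB :=
  ν.toMeasure.prod (bernoulliMeasure true false p)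

instance (ν : PMF ℕ) (p : unitInterval) : IsProbabilityMeasure (mb ν p) := by
  unfold mb; infer_instance

/-- membership in the cluster of the root -/
def OO (ω : List ℕ → EB) : List ℕ → Prop := OpenTo (fun v => (ω v).1) (fun v => (ω v).2)

/-- level `n` is reached -/
def LV (n : ℕ) : Set (List ℕ → EB) := {ω | ∃ u, OO ω u ∧ u.length = n}

/-- the generic event at the root -/
def ES (b : Set Bool) (B : Set (List ℕ → EB)) : Set (List ℕ → EB) :=
  {ω | (ω []).2 ∈ b ∧ ∃ i < (ω []).1, shift [i] ω ∈ B}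

/-- level `n` is reached and the mark of the root is true -/
def DV (n : ℕ) : Set (List ℕ → EB) := {ω | (ω []).2 = true ∧ ω ∈ LV n}

theorem OO_append (ω : List ℕ → EB) (i : ℕ) : ∀ v : List ℕ,
    OO ω (v ++ [i]) ↔ (i < (ω []).1 ∧ (ω [i]).2 = true) ∧ OO (shift [i] ω) v
  | [] => by
    show (True ∧ i < (ω []).1 ∧ (ω [i]).2 = true) ↔ (i < (ω []).1 ∧ (ω [i]).2 = true) ∧ True
    tauto
  | j :: v => by
    show (OO ω (v ++ [i]) ∧ j < (ω (v ++ [i])).1 ∧ (ω (j :: (v ++ [i]))).2 = true) ↔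
      (i < (ω []).1 ∧ (ω [i]).2 = true) ∧
        (OO (shift [i] ω) v ∧ j < (ω (v ++ [i])).1 ∧ (ω (j :: (v ++ [i]))).2 = true)
    rw [OO_append ω i v]
    tauto

theorem LV_zero : LV 0 = Set.univ := by
  ext ω
  simp only [Set.mem_univ, iff_true]
  exact ⟨[], trivial, rfl⟩

theorem LV_succ (n : ℕ) : LV (n + 1) = ES Set.univ (DV n) := by
  ext ω
  constructor
  · rintro ⟨u, hu, hl⟩
    obtain ⟨v, i, rfl⟩ : ∃ v i, u = v ++ [i] := by
      have hne : u ≠ [] := by rintro rfl; simp at hl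
      exact ⟨u.dropLast, u.getLast hne, (List.dropLast_append_getLast hne).symm⟩
    obtain ⟨⟨h2, h3⟩, h4⟩ := (OO_append ω i v).1 hu
    exact ⟨trivial, i, h2, h3, v, h4, by simpa using hl⟩
  · rintro ⟨-, i, h2, h3, v, h4, hl⟩
    exact ⟨v ++ [i], (OO_append ω i v).2 ⟨⟨h2, h3⟩, h4⟩, by simpa using hl⟩

theorem DV_succ (n : ℕ) : DV (n + 1) = ES {true} (DV n) := by
  ext ω
  show ((ω []).2 = true ∧ ω ∈ LV (n + 1)) ↔ _
  rw [LV_succ]
  exact ⟨fun ⟨h1, h2⟩ => ⟨h1, h2.2⟩, fun ⟨h1, h2⟩ => ⟨h1, trivial, h2⟩⟩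

/-- the set in the split space -/
def ESS (b : Set Bool) (B : Set (List ℕ → EB)) : Set (EB × (ℕ → (List ℕ → EB))) :=
  {q | q.1.2 ∈ b ∧ ∃ i < q.1.1, q.2 i ∈ B}

theorem measurable_ESS (b : Set Bool) {B : Set (List ℕ → EB)} (hB : MeasurableSet B) :
    MeasurableSet (ESS b B) := by
  have : ESS b B = {q | q.1.2 ∈ b} ∩ ⋃ i : ℕ, ({q | i < q.1.1} ∩ {q | q.2 i ∈ B}) := by
    ext q
    constructor
    · rintro ⟨h1, i, h2, h3⟩
      exact ⟨h1, Set.mem_iUnion.2 ⟨i, h2, h3⟩⟩
    · rintro ⟨h1, h2⟩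
      obtain ⟨i, h3, h4⟩ := Set.mem_iUnion.1 h2
      exact ⟨h1, i, h3, h4⟩
  rw [this]
  refine MeasurableSet.inter ?_ (MeasurableSet.iUnion fun i => MeasurableSet.inter ?_ ?_)
  · have : Measurable fun q : EB × (ℕ → (List ℕ → EB)) => q.1.2 := by fun_prop
    exact this (t := b) MeasurableSet.of_discrete
  · have : Measurable fun q : EB × (ℕ → (List ℕ → EB)) => q.1.1 := by fun_prop
    exact this (t := {n | i < n}) MeasurableSet.of_discrete
  · have : Measurable fun q : EB × (ℕ → (List ℕ → EB)) => q.2 i :=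
      (measurable_pi_apply i).comp measurable_snd
    exact this hB

theorem measurable_ES (b : Set Bool) {B : Set (List ℕ → EB)} (hB : MeasurableSet B) :
    MeasurableSet (ES b B) := by
  have h1 : Measurable (fun ω : List ℕ → EB => (ω [], fun i : ℕ => shift [i] ω)) := by
    refine (measurable_pi_apply _).prodMk (measurable_pi_lambda _ fun i => measurable_shift [i])
  exact h1 (measurable_ESS b hB)

theorem prob_ex {Ω : Type*} [MeasurableSpace Ω] (P : Measure Ω) [IsProbabilityMeasure P] (k : ℕ)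
    {B : Set Ω} (hB : MeasurableSet B) {y : ℝ} (hy0 : 0 ≤ y) (hy1 : y ≤ 1)
    (hy : P B = ENNReal.ofReal y) :
    (Measure.infinitePi fun _ : ℕ => P) {z | ∃ i < k, z i ∈ B} =
      ENNReal.ofReal (1 - (1 - y) ^ k) := by
  have hyB : P Bᶜ = ENNReal.ofReal (1 - y) := by
    rw [prob_compl_eq_one_sub hB, hy, ENNReal.ofReal_sub _ hy0, ENNReal.ofReal_one]
  have e : {z : ℕ → Ω | ∃ i < k, z i ∈ B} = ((↑(Finset.range k) : Set ℕ).pi fun _ => Bᶜ)ᶜ := by
    ext z
    simp only [Set.mem_ofPred_eq, Set.mem_compl_iff, Set.mem_pi, Finset.coe_range, Set.mem_Iio]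
    push Not
    rfl
  have hm : MeasurableSet ((↑(Finset.range k) : Set ℕ).pi fun _ : ℕ => Bᶜ) :=
    MeasurableSet.pi (Finset.range k).countable_toSet fun _ _ => hB.compl
  rw [e, prob_compl_eq_one_sub hm, Measure.infinitePi_pi _ (fun _ _ => hB.compl)]
  rw [Finset.prod_const, Finset.card_range, hyB, ← ENNReal.ofReal_pow (by linarith),
    ENNReal.ofReal_sub _ (pow_nonneg (by linarith) k), ENNReal.ofReal_one]

theorem prob_ES (ν : PMF ℕ) (p : unitInterval) (b : Set Bool) {B : Set (List ℕ → EB)}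
    (hB : MeasurableSet B) {y : ℝ} (hy0 : 0 ≤ y) (hy1 : y ≤ 1)
    (hy : PW (mb ν p) B = ENNReal.ofReal y) :
    PW (mb ν p) (ES b B) =
      bernoulliMeasure true false p b * ∑' k : ℕ, ν k * ENNReal.ofReal (1 - (1 - y) ^ k) := by
  have h1 := (mp_root (mb ν p)).measure_preimage (measurable_ESS b hB).nullMeasurableSet
  have h2 : (fun ω : List ℕ → EB => (ω [], fun i : ℕ => shift [i] ω)) ⁻¹' (ESS b B) =
      ES b B := rfl
  rw [h2] at h1
  rw [h1, Measure.prod_apply (measurable_ESS b hB)]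
  have h3 : ∀ e : EB, (Measure.infinitePi fun _ : ℕ => PW (mb ν p)) (Prod.mk e ⁻¹' (ESS b B)) =
      ENNReal.ofReal (1 - (1 - y) ^ e.1) * b.indicator 1 e.2 := by
    intro e
    by_cases he : e.2 ∈ b
    · have e1 : Prod.mk e ⁻¹' (ESS b B) = {z | ∃ i < e.1, z i ∈ B} := by
        ext z
        exact ⟨fun h => h.2, fun h => ⟨he, h⟩⟩
      rw [e1, Set.indicator_of_mem he, prob_ex _ _ hB hy0 hy1 hy]
      simp
    · have e1 : Prod.mk e ⁻¹' (ESS b B) = ∅ := by
        ext z
        simp only [Set.mem_preimage, Set.mem_empty_iff_false, iff_false]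
        exact fun h => he h.1
      rw [e1, measure_empty, Set.indicator_of_notMem he, mul_zero]
  simp only [h3]
  unfold mb
  rw [lintegral_prod_mul (f := fun k : ℕ => ENNReal.ofReal (1 - (1 - y) ^ k))
    (g := b.indicator 1) (Measurable.of_discrete.aemeasurable)
    (Measurable.of_discrete.aemeasurable)]
  rw [lintegral_indicator_one MeasurableSet.of_discrete, mul_comm]
  congr 1
  rw [lintegral_countable']
  refine tsum_congr fun k => ?_
  rw [PMF.toMeasure_apply_singleton _ _ (measurableSet_singleton k), mul_comm]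

theorem bern_true (p : unitInterval) : bernoulliMeasure true false p {true} =
    ENNReal.ofReal p := by
  rw [bernoulliMeasure_def]
  simp only [Measure.add_apply, Measure.smul_apply, MeasurableSet.singleton,
    Measure.dirac_apply', Set.indicator_apply, Set.mem_singleton_iff, Pi.one_apply,
    ENNReal.smul_def, smul_eq_mul]
  simp only [if_true, Bool.false_eq_true, if_false, mul_zero, add_zero, mul_one]
  exact (ENNReal.ofReal_eq_coe_nnreal p.2.1).symm

theorem measurable_LV_DV (n : ℕ) : MeasurableSet (LV n) ∧ MeasurableSet (DV n) := by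
  have hmark : MeasurableSet {ω : List ℕ → EB | (ω []).2 = true} := by
    have : Measurable fun ω : List ℕ → EB => (ω []).2 := (measurable_pi_apply _).snd
    exact this (measurableSet_singleton true)
  induction n with
  | zero =>
    have h1 : MeasurableSet (LV 0) := by rw [LV_zero]; exact MeasurableSet.univ
    exact ⟨h1, hmark.inter h1⟩
  | succ n ih =>
    constructor
    · rw [LV_succ]; exact measurable_ES _ ih.2
    · rw [DV_succ]; exact measurable_ES _ ih.2

theorem LV_anti : Antitone LV := by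
  refine antitone_nat_of_succ_le fun n ω => ?_
  rintro ⟨u, hu, hl⟩
  cases u with
  | nil => simp at hl
  | cons i u => exact ⟨u, hu.1, by simpa using hl⟩

/-- the function `1 - φ(1 - s)` -/
noncomputable def FF (ν : PMF ℕ) (s : ℝ) : ℝ := ∑' k : ℕ, (ν k).toReal * (1 - (1 - s) ^ k)

theorem term_nonneg {s : ℝ} (h0 : 0 ≤ s) (h1 : s ≤ 1) (k : ℕ) : 0 ≤ 1 - (1 - s) ^ k := by
  have := pow_le_one₀ (n := k) (show 0 ≤ 1 - s by linarith) (by linarith)
  linarith

theorem term_le_one {s : ℝ} (h1 : s ≤ 1) (k : ℕ) : 1 - (1 - s) ^ k ≤ 1 := by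
  have := pow_nonneg (show 0 ≤ 1 - s by linarith) k
  linarith

theorem summable_nu (ν : PMF ℕ) : Summable fun k => (ν k).toReal :=
  ENNReal.summable_toReal ν.tsum_coe_ne_top

theorem summable_FF (ν : PMF ℕ) {s : ℝ} (h0 : 0 ≤ s) (h1 : s ≤ 1) :
    Summable fun k : ℕ => (ν k).toReal * (1 - (1 - s) ^ k) := by
  refine (summable_nu ν).of_nonneg_of_le (fun k => mul_nonneg ENNReal.toReal_nonneg
    (term_nonneg h0 h1 k)) fun k => ?_
  exact mul_le_of_le_one_right ENNReal.toReal_nonneg (term_le_one h1 k)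

theorem FF_eq (ν : PMF ℕ) {s : ℝ} (h0 : 0 ≤ s) (h1 : s ≤ 1) :
    ∑' k : ℕ, ν k * ENNReal.ofReal (1 - (1 - s) ^ k) = ENNReal.ofReal (FF ν s) := by
  unfold FF
  rw [ENNReal.ofReal_tsum_of_nonneg (fun k => mul_nonneg ENNReal.toReal_nonneg
    (term_nonneg h0 h1 k)) (summable_FF ν h0 h1)]
  refine tsum_congr fun k => ?_
  rw [ENNReal.ofReal_mul ENNReal.toReal_nonneg, ENNReal.ofReal_toReal (PMF.apply_ne_top ν k)]

theorem FF_nonneg (ν : PMF ℕ) {s : ℝ} (h0 : 0 ≤ s) (h1 : s ≤ 1) : 0 ≤ FF ν s :=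
  tsum_nonneg fun k => mul_nonneg ENNReal.toReal_nonneg (term_nonneg h0 h1 k)

theorem FF_mono (ν : PMF ℕ) {s t : ℝ} (h0 : 0 ≤ s) (hst : s ≤ t) (h1 : t ≤ 1) :
    FF ν s ≤ FF ν t := by
  refine (summable_FF ν h0 (hst.trans h1)).tsum_le_tsum (fun k => ?_)
    (summable_FF ν (h0.trans hst) h1)
  gcongr

theorem FF_cont (ν : PMF ℕ) : ContinuousOn (FF ν) (Set.Icc 0 1) := by
  refine continuousOn_tsum (u := fun k => (ν k).toReal) (fun k => by fun_prop) (summable_nu ν) ?_
  intro k s hs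
  rw [Real.norm_of_nonneg (mul_nonneg ENNReal.toReal_nonneg (term_nonneg hs.1 hs.2 k))]
  exact mul_le_of_le_one_right ENNReal.toReal_nonneg (term_le_one hs.2 k)

/-- the probability of reaching level `n` -/
noncomputable def ll (ν : PMF ℕ) (p : unitInterval) (n : ℕ) : ℝ := (PW (mb ν p)).real (LV n)

theorem ll_nonneg (ν : PMF ℕ) (p : unitInterval) (n : ℕ) : 0 ≤ ll ν p n := measureReal_nonneg

theorem ll_le_one (ν : PMF ℕ) (p : unitInterval) (n : ℕ) : ll ν p n ≤ 1 := by
  unfold ll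
  exact measureReal_le_one

theorem ll_eq (ν : PMF ℕ) (p : unitInterval) (n : ℕ) :
    PW (mb ν p) (LV n) = ENNReal.ofReal (ll ν p n) := by
  unfold ll
  rw [ofReal_measureReal]

theorem DV_eq (ν : PMF ℕ) (p : unitInterval) (n : ℕ) :
    PW (mb ν p) (DV n) = ENNReal.ofReal (p * ll ν p n) := by
  induction n with
  | zero =>
    have h1 : ll ν p 0 = 1 := by unfold ll; rw [LV_zero]; simp
    rw [h1, mul_one, ← bern_true]
    have h2 := (measurePreserving_eval_infinitePi (fun _ : List ℕ => mb ν p) []).measure_preimage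
      (s := Set.univ ×ˢ {true}) (MeasurableSet.univ.prod
        (measurableSet_singleton true)).nullMeasurableSet
    have h3 : (Function.eval [] ⁻¹' (Set.univ ×ˢ {true}) : Set (List ℕ → EB)) = DV 0 := by
      ext ω
      show ((ω []).1 ∈ Set.univ ∧ (ω []).2 = true) ↔ ((ω []).2 = true ∧ ω ∈ LV 0)
      rw [LV_zero]
      simp
    rw [h3] at h2
    rw [h2]
    unfold mb
    rw [Measure.prod_prod, measure_univ, one_mul]
  | succ n ih =>
    have hy0 : 0 ≤ (p : ℝ) * ll ν p n := mul_nonneg p.2.1 (ll_nonneg ν p n)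
    have hy1 : (p : ℝ) * ll ν p n ≤ 1 := mul_le_one₀ p.2.2 (ll_nonneg ν p n) (ll_le_one ν p n)
    have h1 := prob_ES ν p Set.univ (measurable_LV_DV n).2 hy0 hy1 ih
    have h2 := prob_ES ν p {true} (measurable_LV_DV n).2 hy0 hy1 ih
    rw [← LV_succ, measure_univ, one_mul] at h1
    rw [← DV_succ, ← h1, bern_true, ll_eq, ← ENNReal.ofReal_mul p.2.1] at h2
    exact h2

theorem ll_succ (ν : PMF ℕ) (p : unitInterval) (n : ℕ) :
    ll ν p (n + 1) = FF ν (p * ll ν p n) := by
  have hy0 : 0 ≤ (p : ℝ) * ll ν p n := mul_nonneg p.2.1 (ll_nonneg ν p n)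
  have hy1 : (p : ℝ) * ll ν p n ≤ 1 := mul_le_one₀ p.2.2 (ll_nonneg ν p n) (ll_le_one ν p n)
  have h1 := prob_ES ν p Set.univ (measurable_LV_DV n).2 hy0 hy1 (DV_eq ν p n)
  rw [← LV_succ, measure_univ, one_mul, FF_eq ν hy0 hy1, ll_eq] at h1
  exact (ENNReal.ofReal_eq_ofReal_iff (ll_nonneg _ _ _) (FF_nonneg ν hy0 hy1)).1 h1

theorem infinite_iff (ω : List ℕ → EB) : {u | OO ω u}.Infinite ↔ ∀ n, ω ∈ LV n := by
  have hsub : ∀ u, OO ω u → InTree (fun v => (ω v).1) u := by
    intro u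
    induction u with
    | nil => intro _; trivial
    | cons i u ih => intro h; exact ⟨ih h.1, h.2.1⟩
  constructor
  · intro hinf n
    by_contra hcon
    apply hinf
    have h1 : {u | OO ω u} ⊆ ⋃ m ∈ Finset.range n,
        {u | InTree (fun v => (ω v).1) u ∧ u.length = m} := by
      intro u hu
      rw [Set.mem_iUnion₂]
      refine ⟨u.length, ?_, hsub u hu, rfl⟩
      rw [Finset.mem_range]
      by_contra hlt
      push Not at hlt
      apply hcon
      exact LV_anti hlt ⟨u, hu, rfl⟩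
    refine Set.Finite.subset ?_ h1
    exact (Finset.finite_toSet _).biUnion fun m _ => finite_levels _ m
  · intro h
    choose u hu hl using h
    refine Set.infinite_of_injective_forall_mem (f := u) ?_ hu
    intro a b hab
    rw [← hl a, ← hl b, hab]

theorem ga_eq (ν : PMF ℕ) (p : unitInterval) :
    ga ν p = (PW (mb ν p)).real (⋂ n, LV n) := by
  have hm : MeasurableSet (⋂ n, LV n) := MeasurableSet.iInter fun n => (measurable_LV_DV n).1
  unfold ga Measure.real
  congr 1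
  have h0 : Set.projIcc 0 1 zero_le_one (p : ℝ) = p := Set.projIcc_val zero_le_one p
  rw [h0]
  have h1 : PW (mb ν p) = Measure.map zip ((GW ν).prod (bern (List ℕ) p)) :=
    (map_zip (ι := List ℕ) ν.toMeasure (bernoulliMeasure true false p)).symm
  have : IsProbabilityMeasure (GW ν) := by unfold GW; infer_instance
  have : IsProbabilityMeasure (bern (List ℕ) p) := by unfold bern; infer_instance
  rw [h1, Measure.map_apply measurable_zip hm, Measure.prod_apply (measurable_zip hm)]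
  refine lintegral_congr fun Z => ?_
  unfold gq
  congr 1
  ext c
  show {u | OO (zip (Z, c)) u}.Infinite ↔ zip (Z, c) ∈ ⋂ n, LV n
  rw [infinite_iff, Set.mem_iInter]

theorem ll_tendsto (ν : PMF ℕ) (p : unitInterval) :
    Tendsto (ll ν p) atTop (𝓝 (ga ν p)) := by
  rw [ga_eq]
  have h1 : Tendsto (fun n => PW (mb ν p) (LV n)) atTop (𝓝 (PW (mb ν p) (⋂ n, LV n))) :=
    tendsto_measure_iInter_atTop (fun n => (measurable_LV_DV n).1.nullMeasurableSet)
      LV_anti ⟨0, measure_ne_top _ _⟩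
  exact (ENNReal.tendsto_toReal (measure_ne_top _ _)).comp h1

theorem ga_nonneg (ν : PMF ℕ) (p : unitInterval) : 0 ≤ ga ν p :=
  ge_of_tendsto' (ll_tendsto ν p) fun n => ll_nonneg ν p n

theorem ga_le_one (ν : PMF ℕ) (p : unitInterval) : ga ν p ≤ 1 :=
  le_of_tendsto' (ll_tendsto ν p) fun n => ll_le_one ν p n

/-- the survival probability is a fixed point -/
theorem ga_fixed (ν : PMF ℕ) (p : unitInterval) : ga ν p = FF ν (p * ga ν p) := by
  have h1 := (ll_tendsto ν p).comp (tendsto_add_atTop_nat 1)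
  have h2 : Tendsto (fun n => FF ν (p * ll ν p n)) atTop (𝓝 (FF ν (p * ga ν p))) := by
    have hmem : (p : ℝ) * ga ν p ∈ Set.Icc (0 : ℝ) 1 :=
      ⟨mul_nonneg p.2.1 (ga_nonneg ν p), mul_le_one₀ p.2.2 (ga_nonneg ν p) (ga_le_one ν p)⟩
    have h3 := FF_cont ν _ hmem
    refine h3.tendsto.comp ?_
    refine tendsto_nhdsWithin_iff.2 ⟨(ll_tendsto ν p).const_mul _, Eventually.of_forall fun n => ?_⟩
    exact ⟨mul_nonneg p.2.1 (ll_nonneg ν p n), mul_le_one₀ p.2.2 (ll_nonneg ν p n)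
      (ll_le_one ν p n)⟩
  refine tendsto_nhds_unique h1 (h2.congr fun n => ?_)
  exact (ll_succ ν p n).symm

/-- it is the largest one -/
theorem le_ga (ν : PMF ℕ) (p : unitInterval) {t : ℝ} (ht0 : 0 ≤ t) (ht1 : t ≤ 1)
    (ht : t ≤ FF ν (p * t)) : t ≤ ga ν p := by
  refine ge_of_tendsto' (ll_tendsto ν p) fun n => ?_
  induction n with
  | zero =>
    have h1 : ll ν p 0 = 1 := by unfold ll; rw [LV_zero]; simp
    rw [h1]; exact ht1
  | succ n ih =>
    rw [ll_succ]
    refine ht.trans (FF_mono ν (mul_nonneg p.2.1 ht0) ?_ ?_)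
    · exact mul_le_mul_of_nonneg_left ih p.2.1
    · exact mul_le_one₀ p.2.2 (ll_nonneg ν p n) (ll_le_one ν p n)

end Pool.Agent.X136.GS
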