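import Pool.Agent.X136.GS.Lac
import Pool.Agent.X136.GS.Diff
import Pool.Agent.X136.GS.Rec

set_option autoImplicit false

/-!
# The lacunary offspring law and its survival function
-/

namespace Pool.Agent.X136.GS

open MeasureTheory ProbabilityTheory Filter Topology Pool.Agent.X136.GT

/-- the mass at `xx j` -/
noncomputable def cc (j : ℕ) : ENNReal := ENNReal.ofReal (ww j / xx j)

theorem cc_sum_le : ∑' j, cc j ≤ 1 := by
  have h1 : ∀ j, cc j ≤ ENNReal.ofReal (ww j / 2) := by
    intro j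
    refine ENNReal.ofReal_le_ofReal ?_
    have h2 : (2 : ℝ) ≤ xx j := by exact_mod_cast two_le_xx j
    have := (ww_pos j).le
    gcongr
  refine (ENNReal.tsum_le_tsum h1).trans ?_
  rw [← ENNReal.ofReal_tsum_of_nonneg (fun j => by have := ww_pos j; positivity)
    (hasSum_ww.summable.div_const 2), tsum_div_const, hasSum_ww.tsum_eq]
  norm_num

/-- the density -/
noncomputable def ff (k : ℕ) : ENNReal :=
  (if k = 0 then 1 - ∑' j, cc j else 0) + ∑' j, (if k = xx j then cc j else 0)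

theorem ff_sum (g : ℕ → ENNReal) : ∑' k, ff k * g k =
    (1 - ∑' j, cc j) * g 0 + ∑' j, cc j * g (xx j) := by
  have h1 : ∀ k, ff k * g k = (if k = 0 then (1 - ∑' j, cc j) * g 0 else 0) +
      ∑' j, (if k = xx j then cc j * g (xx j) else 0) := by
    intro k
    unfold ff
    rw [add_mul]
    congr 1
    · split_ifs with h
      · rw [h]
      · rw [zero_mul]
    · rw [← ENNReal.tsum_mul_right]
      refine tsum_congr fun j => ?_
      split_ifs with h
      · rw [h]
      · rw [zero_mul]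
  simp only [h1]
  rw [ENNReal.tsum_add]
  congr 1
  · exact tsum_ite_eq 0 _
  · rw [ENNReal.tsum_comm]
    refine tsum_congr fun j => ?_
    exact tsum_ite_eq (xx j) _

/-- the lacunary offspring law: mass `2^{-j} / x_j` at `x_j = 2^{5^j}`, the rest at zero -/
noncomputable def lac : PMF ℕ := ⟨ff, by
  have h := ff_sum fun _ => 1
  simp only [mul_one] at h
  rw [tsub_add_cancel_of_le cc_sum_le] at h
  rw [← h]
  exact ENNReal.summable.hasSum⟩

theorem lac_sum (g : ℕ → ENNReal) (h0 : g 0 = 0) : ∑' k, lac k * g k =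
    ∑' j, cc j * g (xx j) := by
  have h := ff_sum g
  rw [h0, mul_zero, zero_add] at h
  exact h

theorem lac_mean : ∑' k : ℕ, lac k * (k : ENNReal) = ENNReal.ofReal 2 := by
  rw [lac_sum _ (by simp)]
  have : ∀ j, cc j * ((xx j : ℕ) : ENNReal) = ENNReal.ofReal (ww j) := by
    intro j
    unfold cc
    rw [← ENNReal.ofReal_natCast, ← ENNReal.ofReal_mul (div_nonneg (ww_pos j).le (xx_pos j).le),
      div_mul_cancel₀ _ (xx_pos j).ne']
  simp only [this]
  rw [← ENNReal.ofReal_tsum_of_nonneg (fun j => (ww_pos j).le) hasSum_ww.summable,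
    hasSum_ww.tsum_eq]

theorem FF_lac {s : ℝ} (h0 : 0 ≤ s) (h1 : s ≤ 1) : FF lac s = s * GG s := by
  have h2 := FF_eq lac h0 h1
  rw [lac_sum _ (by simp)] at h2
  have h3 : ∀ j, cc j * ENNReal.ofReal (1 - (1 - s) ^ xx j) =
      ENNReal.ofReal (s * (ww j * aj j s)) := by
    intro j
    unfold cc aj
    rw [← AK_mul, ← ENNReal.ofReal_mul (div_nonneg (ww_pos j).le (xx_pos j).le)]
    congr 1
    ring
  simp only [h3] at h2
  rw [← ENNReal.ofReal_tsum_of_nonneg (fun j => mul_nonneg h0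
    (mul_nonneg (ww_pos j).le (aj_nonneg j h1))) ((summable_GG h0 h1).mul_left s),
    tsum_mul_left] at h2
  have h4 : 0 ≤ s * GG s := mul_nonneg h0 (by have := half_le_GG h0 h1; linarith)
  exact ((ENNReal.ofReal_eq_ofReal_iff h4 (FF_nonneg lac h0 h1)).1 h2).symm

/-- the parameter belonging to `s` -/
noncomputable def HH (s : ℝ) : ℝ := 1 / GG s

/-- on the curve -/
theorem curve {s : ℝ} (h0 : 0 < s) (h1 : s ≤ 1 / 64) : HH s * ga lac (HH s) = s := by
  have hs1 : s ≤ 1 := by linarith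
  have hG1 := GG_ge_one h0.le h1
  have hGpos : 0 < GG s := by linarith
  have hH0 : 0 < HH s := by unfold HH; positivity
  have hH1 : HH s ≤ 1 := by unfold HH; rw [div_le_one hGpos]; exact hG1
  set p : unitInterval := ⟨HH s, hH0.le, hH1⟩ with hp
  have hHG : HH s * GG s = 1 := by unfold HH; field_simp
  have hFle : s * GG s ≤ 1 := by
    have := GG_le_two h0.le hs1
    nlinarith
  have hpt : (p : ℝ) * (s * GG s) = s := by
    show HH s * (s * GG s) = s
    calc HH s * (s * GG s) = s * (HH s * GG s) := by ring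
      _ = s := by rw [hHG, mul_one]
  have h2 : s * GG s ≤ ga lac p := by
    refine le_ga lac p (by positivity) hFle ?_
    rw [hpt, FF_lac h0.le hs1]
  have h3 := ga_fixed lac p
  set g := ga lac p with hg
  have hgpos : 0 < g := lt_of_lt_of_le (by positivity) h2
  have hg1 : g ≤ 1 := ga_le_one lac p
  have hp0 : (0 : ℝ) < p := hH0
  have hp1 : (p : ℝ) ≤ 1 := hH1
  have hs'0 : 0 < (p : ℝ) * g := by positivity
  have hs'1 : (p : ℝ) * g ≤ 1 := mul_le_one₀ hp1 hgpos.le hg1
  rw [FF_lac hs'0.le hs'1] at h3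
  have h4 : (p : ℝ) * GG (p * g) = 1 := by
    have h5 : g * (p * GG (p * g)) = g * 1 := by rw [mul_one]; nlinarith
    exact mul_left_cancel₀ hgpos.ne' h5
  have h6 : GG (p * g) = GG s := by
    have h7 : (p : ℝ) * GG (p * g) = p * GG s := by rw [h4]; exact hHG.symm
    exact mul_left_cancel₀ hp0.ne' h7
  show (p : ℝ) * g = s
  rcases lt_trichotomy ((p : ℝ) * g) s with h | h | h
  · have := GG_strict hs'0.le h hs1
    linarith
  · exact h
  · have := GG_strict h0.le h hs'1
    linarith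

/-- the survival function is very small near criticality -/
theorem ga_cubic {p : ℝ} (hp0 : 1 / 2 < p) (hp1 : p ≤ 1) :
    ga lac p ≤ 16384 * (p - 1 / 2) ^ 3 := by
  set q : unitInterval := ⟨p, by linarith, hp1⟩ with hq
  have h3 := ga_fixed lac q
  have hg0 : 0 ≤ ga lac q := ga_nonneg lac q
  have hg1 : ga lac q ≤ 1 := ga_le_one lac q
  have hqp : (q : ℝ) = p := rfl
  rw [hqp] at h3 hg0 hg1
  set g := ga lac p with hg
  rcases hg0.eq_or_lt with h | hgpos
  · rw [← h]
    have : 0 < p - 1 / 2 := by linarith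
    positivity
  set s := p * g with hs
  have hp0' : 0 < p := by linarith
  have hs0 : 0 < s := by positivity
  have hs1 : s ≤ 1 := mul_le_one₀ hp1 hgpos.le hg1
  rw [FF_lac hs0.le hs1] at h3
  have h4 : p * GG s = 1 := by
    have h5 : g * (p * GG s) = g * 1 := by rw [mul_one]; nlinarith
    exact mul_left_cancel₀ hgpos.ne' h5
  have hex : ∃ j, 2 ≤ s * xx (j + 1) := by
    obtain ⟨j, hj⟩ := exists_nat_ge (2 / s)
    refine ⟨j, ?_⟩
    rw [div_le_iff₀ hs0] at hj
    have h6 : (j : ℝ) ≤ xx (j + 1) := by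
      have := (le_xx (j + 1))
      exact_mod_cast (by omega : j ≤ xx (j + 1))
    nlinarith
  classical
  obtain ⟨j, hj1, hj2⟩ : ∃ j, 2 ≤ s * xx (j + 1) ∧ s * xx j ≤ 2 := by
    refine ⟨Nat.find hex, Nat.find_spec hex, ?_⟩
    rcases Nat.eq_zero_or_pos (Nat.find hex) with h | h
    · rw [h, xx_zero]
      push_cast
      linarith
    · obtain ⟨m, hm⟩ : ∃ m, Nat.find hex = m + 1 := ⟨Nat.find hex - 1, by omega⟩
      have := Nat.find_min hex (m := m) (by omega)
      rw [hm]
      push Not at this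
      exact this.le
  have h5 := GG_gap hs0 hs1 j hj1
  have hG2 := GG_le_two hs0.le hs1
  -- eps
  have h6 : ww j / 16 ≤ p - 1 / 2 := by
    have h7 : p - 1 / 2 = p * (2 - GG s) / 2 := by
      have : p * (2 - GG s) = 2 * p - 1 := by rw [mul_sub, h4]; ring
      rw [this]; ring
    rw [h7]
    have h8 := ww_pos j
    nlinarith
  have h7 : s ≤ 2 * ww j ^ 3 := by
    have h8 : (8 : ℝ) ^ j ≤ xx j := by exact_mod_cast eight_pow_le j
    have h9 : ww j ^ 3 * 8 ^ j = 1 := by
      unfold ww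
      rw [← pow_mul, mul_comm j 3, pow_mul, ← mul_pow]
      norm_num
    have h10 : s * 8 ^ j ≤ 2 := by
      have : s * 8 ^ j ≤ s * xx j := by gcongr
      linarith
    have h11 : (0 : ℝ) < 8 ^ j := by positivity
    refine le_of_mul_le_mul_right ?_ h11
    calc s * 8 ^ j ≤ 2 := h10
      _ = 2 * (ww j ^ 3 * 8 ^ j) := by rw [h9, mul_one]
      _ = 2 * ww j ^ 3 * 8 ^ j := by ring
  have h8 : ww j ^ 3 ≤ (16 * (p - 1 / 2)) ^ 3 := by
    refine pow_le_pow_left₀ (ww_pos j).le ?_ 3
    linarith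
  have h9 : g ≤ 2 * s := by
    rw [hs]
    nlinarith
  have h10 : (16 * (p - 1 / 2)) ^ 3 = 4096 * (p - 1 / 2) ^ 3 := by ring
  rw [h10] at h8
  linarith

/-- the survival function is not of class `C²` -/
theorem not_C2 {δ : ℝ} (hδ : 0 < δ) : ¬ ContDiffOn ℝ 2 (ga lac) (Set.Ico (1 / 2) (1 / 2 + δ)) := by
  intro hC
  have hu : ContDiffOn ℝ 2 (fun p => p * ga lac p) (Set.Ico (1 / 2) (1 / 2 + δ)) :=
    contDiffOn_id.mul hC
  obtain ⟨M, hM0, hM⟩ := divided_bound hδ hu
  -- choice of `j`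
  obtain ⟨j, hj1, hjM, hjδ⟩ : ∃ j : ℕ, 1 ≤ j ∧ 20000 * M < (xx j : ℝ) ∧ 8 * ww j ≤ δ / 2 := by
    have h1 : Tendsto (fun j : ℕ => 8 * ww j) atTop (𝓝 (8 * 0)) := by
      refine Tendsto.const_mul 8 ?_
      unfold ww
      exact tendsto_pow_atTop_nhds_zero_of_lt_one (by norm_num) (by norm_num)
    rw [mul_zero] at h1
    have h2 := h1.eventually_le_const (show (0 : ℝ) < δ / 2 by linarith)
    obtain ⟨m, hm⟩ := exists_nat_gt (20000 * M)
    obtain ⟨j, hj⟩ := ((eventually_ge_atTop (max 1 m)).and h2).exists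
    refine ⟨j, (le_max_left _ _).trans hj.1, lt_of_lt_of_le hm ?_, hj.2⟩
    exact_mod_cast ((le_max_right _ _).trans hj.1).trans (le_xx j)
  set X : ℝ := ((xx j : ℕ) : ℝ) with hX
  set w : ℝ := ww j with hw
  have hX32 : (32 : ℝ) ≤ X := by
    have : xx 1 ≤ xx j := xx_mono hj1
    rw [xx_one] at this
    rw [hX]
    exact_mod_cast this
  have hXpos : 0 < X := by linarith
  have hw0 : 0 < w := ww_pos j
  have hw1 : w ≤ 1 := by
    rw [hw]; unfold ww
    exact pow_le_one₀ (by norm_num) (by norm_num)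
  have hX5 : (xx (j + 1) : ℝ) = X ^ 5 := by rw [xx_succ]; push_cast; rfl
  set t : ℝ := 1 / (64 * X ^ 3) with ht
  have ht0 : 0 < t := by positivity
  have htX : t * X ^ 3 = 1 / 64 := by rw [ht]; field_simp
  have ht1 : 2048 * t ≤ 1 / 64 := by
    have h1 : (32 : ℝ) ^ 3 ≤ X ^ 3 := pow_le_pow_left₀ (by norm_num) hX32 3
    rw [ht, mul_one_div, div_le_div_iff₀ (by positivity) (by norm_num)]
    norm_num at h1
    linarith
  -- the three points
  have hc1 := curve ht0 (by linarith)
  have hc2 := curve (s := 2 * t) (by linarith) (by linarith)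
  have hc3 := curve (s := 2048 * t) (by linarith) ht1
  have hG1 := GG_ge_one ht0.le (by linarith)
  have hG2 := GG_ge_one (s := 2 * t) (by linarith) (by linarith)
  have hG3 := GG_ge_one (s := 2048 * t) (by linarith) ht1
  have hG1' := GG_le_two ht0.le (by linarith)
  have hG2' := GG_le_two (s := 2 * t) (by linarith) (by linarith)
  have hG3' := GG_le_two (s := 2048 * t) (by linarith) (by linarith)
  have hs12 := GG_strict ht0.le (show t < 2 * t by linarith) (by linarith)
  have hs23 := GG_strict (s := 2 * t) (t := 2048 * t) (by linarith) (by linarith) (by linarith)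
  set G1 := GG t with hG1d
  set G2 := GG (2 * t) with hG2d
  set G3 := GG (2048 * t) with hG3d
  -- estimates for increments of `G`
  have hd12 : w / X ^ 2 * 8 ≤ G1 - G2 := by
    have h1 := GG_double ht0 (by linarith) j (by
      rw [hX5]
      calc (3 : ℝ) ≤ (1 / 64) * 32 ^ 2 := by norm_num
        _ ≤ (1 / 64) * X ^ 2 := by gcongr
        _ = t * X ^ 5 := by rw [← htX]; ring)
    refine le_trans (le_of_eq ?_) h1
    rw [ww_succ, hX5, ht, ← hw]
    field_simp
    norm_num
  have hd23 : G2 - G3 ≤ w / X ^ 2 * 96 := by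
    have h1 := GG_upper_pos (s := 2 * t) (t := 2048 * t) (by linarith) (by linarith)
      (by linarith) j
    refine h1.trans ?_
    rw [hX5, ← hw, ← hX]
    have e1 : 2 * (w * X) * (2048 * t - 2 * t) = w / X ^ 2 * (2046 / 32) := by
      rw [ht]; field_simp; norm_num
    have e2 : w * (1 / (X ^ 5 * (2 * t))) = w / X ^ 2 * 32 := by
      rw [ht]; field_simp; norm_num
    rw [e1, e2]
    have : 0 ≤ w / X ^ 2 := by positivity
    nlinarith
  have hd13 : G1 - G3 ≤ w / X ^ 2 * 128 := by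
    have h1 := GG_upper_pos (s := t) (t := 2048 * t) ht0 (by linarith) (by linarith) j
    refine h1.trans ?_
    rw [hX5, ← hw, ← hX]
    have e1 : 2 * (w * X) * (2048 * t - t) = w / X ^ 2 * (2047 / 32) := by
      rw [ht]; field_simp; norm_num
    have e2 : w * (1 / (X ^ 5 * t)) = w / X ^ 2 * 64 := by
      rw [ht]; field_simp
    rw [e1, e2]
    have : 0 ≤ w / X ^ 2 := by positivity
    nlinarith
  have hd03 : 2 - G3 ≤ 2 * w := by
    have h1 := GG_upper_zero (t := 2048 * t) (by linarith) (by linarith) j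
    refine h1.trans ?_
    rw [← hw, ← hX]
    have e1 : 2 * (w * X) * (2048 * t) = w * (64 / X ^ 2) := by
      rw [ht]; field_simp; norm_num
    have h2 : 64 / X ^ 2 ≤ 1 := by
      rw [div_le_one (by positivity)]
      nlinarith
    have h3 : w * (64 / X ^ 2) ≤ w * 1 := by gcongr
    rw [e1]
    linarith
  -- the parameters
  have hH : ∀ a b : ℝ, 1 ≤ a → 1 ≤ b → a ≤ 2 → b ≤ 2 → b < a →
      1 / b - 1 / a ≤ a - b ∧ (a - b) / 4 ≤ 1 / b - 1 / a ∧ 0 < 1 / b - 1 / a := by
    intro a b ha hb ha2 hb2 hab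
    have ha0 : 0 < a := by linarith
    have hb0 : 0 < b := by linarith
    have e : 1 / b - 1 / a = (a - b) / (a * b) := by field_simp
    have hab1 : 1 ≤ a * b := by nlinarith
    have hab4 : a * b ≤ 4 := by nlinarith
    rw [e]
    refine ⟨?_, ?_, ?_⟩
    · rw [div_le_iff₀ (by positivity)]; nlinarith
    · rw [div_le_div_iff₀ (by norm_num) (by positivity)]; nlinarith
    · exact div_pos (by linarith) (by positivity)
  obtain ⟨h12a, h12b, h12c⟩ := hH G1 G2 hG1 hG2 hG1' hG2' hs12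
  obtain ⟨h23a, h23b, h23c⟩ := hH G2 G3 hG2 hG3 hG2' hG3' hs23
  have hs13 : G3 < G1 := hs23.trans hs12
  obtain ⟨h13a, h13b, h13c⟩ := hH G1 G3 hG1 hG3 hG1' hG3' hs13
  have hp1 : (1 : ℝ) / 2 ≤ HH t := by
    unfold HH
    exact one_div_le_one_div_of_le (by linarith) hG1'
  have hp3 : HH (2048 * t) ≤ 1 / 2 + δ / 2 := by
    have h1 : HH (2048 * t) - 1 / 2 ≤ 2 - G3 := by
      unfold HH
      rw [← hG3d]
      have hG30 : 0 < G3 := by linarith
      have e : 1 / G3 - 1 / 2 = (2 - G3) / (2 * G3) := by field_simp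
      rw [e, div_le_iff₀ (by positivity)]
      nlinarith
    linarith
  have hmain := hM (HH t) (HH (2 * t)) (HH (2048 * t)) hp1
    (by unfold HH; rw [← hG1d, ← hG2d]; linarith) (by unfold HH; rw [← hG2d, ← hG3d]; linarith) hp3
  simp only [hc1, hc2, hc3] at hmain
  -- the slopes
  have hP12 : HH (2 * t) - HH t = 1 / G2 - 1 / G1 := rfl
  have hP23 : HH (2048 * t) - HH (2 * t) = 1 / G3 - 1 / G2 := rfl
  have hP13 : HH (2048 * t) - HH t = 1 / G3 - 1 / G1 := rfl
  rw [hP12, hP23, hP13] at hmain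
  have hwX : 0 < w / X ^ 2 := by positivity
  have hsl12 : (2 * t - t) / (1 / G2 - 1 / G1) ≤ 1 / (128 * (w * X)) := by
    rw [div_le_iff₀ h12c]
    have h1 : w / X ^ 2 * 8 / 4 ≤ 1 / G2 - 1 / G1 := by linarith
    calc 2 * t - t = 1 / (128 * (w * X)) * (w / X ^ 2 * 8 / 4) := by
          rw [ht]; field_simp; norm_num
      _ ≤ 1 / (128 * (w * X)) * (1 / G2 - 1 / G1) := by gcongr
  have hsl23 : 1 / (4 * (w * X)) ≤ (2048 * t - 2 * t) / (1 / G3 - 1 / G2) := by
    rw [le_div_iff₀ h23c]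
    calc 1 / (4 * (w * X)) * (1 / G3 - 1 / G2) ≤ 1 / (4 * (w * X)) * (w / X ^ 2 * 96) := by
          gcongr
          linarith
      _ ≤ 2048 * t - 2 * t := by
          have e1 : 1 / (4 * (w * X)) * (w / X ^ 2 * 96) = 24 * 64 * t := by
            rw [ht]; field_simp; norm_num
          rw [e1]; linarith
  have hbound : M * (1 / G3 - 1 / G1) ≤ M * (w / X ^ 2 * 128) := by
    gcongr
    linarith
  have hfin : 1 / (8 * (w * X)) ≤ M * (w / X ^ 2 * 128) := by
    have e1 : 1 / (4 * (w * X)) = 1 / (8 * (w * X)) + 1 / (8 * (w * X)) := by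
      field_simp; norm_num
    have e2 : 1 / (128 * (w * X)) ≤ 1 / (8 * (w * X)) := by
      refine one_div_le_one_div_of_le (by positivity) ?_
      have : 0 < w * X := by positivity
      linarith
    linarith
  have h20 : X ≤ 1024 * M * w ^ 2 := by
    have h21 : 1 / (8 * (w * X)) * (8 * w * X ^ 2) ≤ M * (w / X ^ 2 * 128) * (8 * w * X ^ 2) := by
      gcongr
    have e1 : 1 / (8 * (w * X)) * (8 * w * X ^ 2) = X := by field_simp
    have e2 : M * (w / X ^ 2 * 128) * (8 * w * X ^ 2) = 1024 * M * w ^ 2 := by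
      field_simp; ring
    rwa [e1, e2] at h21
  have h22 : w ^ 2 ≤ 1 := pow_le_one₀ hw0.le hw1
  have h23 : 1024 * M * w ^ 2 ≤ 1024 * M := by nlinarith
  linarith

end Pool.Agent.X136.GS
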